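import Pool.Agent.H84.Cartan.Weierstrass

set_option autoImplicit false
open Metric Set Filter Topology

/-! MP_2e6055, module GR: growth of a univalent map of the disc by means of a square root. -/

namespace Pool.Agent.H64.SM

/-- the square root of `φ - b` stays away from `-c` -/
lemma far_neg {φ h : ℂ → ℂ} {b c : ℂ} (hh : DifferentiableOn ℂ h (ball 0 1))
    (hsq : ∀ w ∈ ball (0 : ℂ) 1, h w ^ 2 = φ w - b) (hinj : InjOn φ (ball 0 1))
    (hc : h 0 = c) (hc0 : c ≠ 0) (hD : ball (φ 0) (‖c‖ ^ 2) ⊆ φ '' ball 0 1) :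
    ∀ w ∈ ball (0 : ℂ) 1, 2 / 5 * ‖c‖ ≤ ‖h w + c‖ := by
  by_contra hcon
  push Not at hcon
  obtain ⟨w1, hw1, hlt⟩ := hcon
  have hcp : 0 < ‖c‖ := norm_pos_iff.mpr hc0
  have h0m : (0 : ℂ) ∈ ball (0 : ℂ) 1 := by simp
  -- `h` is open
  have hop : ∀ s ⊆ ball (0 : ℂ) 1, IsOpen s → IsOpen (h '' s) := by
    rcases (hh.analyticOnNhd isOpen_ball).is_constant_or_isOpen
      (convex_ball (0 : ℂ) 1).isPreconnected with ⟨a, ha⟩ | h1
    · exfalso
      have h2 : (1 / 2 : ℂ) ∈ ball (0 : ℂ) 1 := by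
        rw [mem_ball_zero_iff]; norm_num
      have h3 : φ 0 = φ (1 / 2) := by
        have e1 := hsq 0 h0m
        have e2 := hsq _ h2
        rw [ha 0 h0m] at e1
        rw [ha _ h2] at e2
        linear_combination e2 - e1
      have h4 := hinj h0m h2 h3
      norm_num at h4
    · exact h1
  have hO : IsOpen (h '' ball 0 1) := hop _ subset_rfl isOpen_ball
  set B : Set ℂ := ball c (2 / 5 * ‖c‖) with hB
  have hBne : ∀ u ∈ B, u ≠ 0 := by
    rintro u hu rfl
    rw [hB, mem_ball, dist_eq_norm, zero_sub, norm_neg] at hu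
    linarith
  have hcov : ∀ u ∈ B, u ∈ h '' ball 0 1 ∨ -u ∈ h '' ball 0 1 := by
    intro u hu
    have hu1 : ‖u - c‖ < 2 / 5 * ‖c‖ := by rwa [hB, mem_ball, dist_eq_norm] at hu
    have hu2 : ‖u + c‖ ≤ 12 / 5 * ‖c‖ := by
      calc ‖u + c‖ = ‖(u - c) + 2 * c‖ := by ring_nf
        _ ≤ ‖u - c‖ + ‖2 * c‖ := norm_add_le _ _
        _ ≤ 2 / 5 * ‖c‖ + 2 * ‖c‖ := by
            rw [norm_mul]
            have : ‖(2 : ℂ)‖ = 2 := by norm_num
            rw [this]; linarith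
        _ = 12 / 5 * ‖c‖ := by ring
    have hm : u ^ 2 + b ∈ ball (φ 0) (‖c‖ ^ 2) := by
      rw [mem_ball, dist_eq_norm]
      have e1 : u ^ 2 + b - φ 0 = (u - c) * (u + c) := by
        have := hsq 0 h0m
        rw [hc] at this
        linear_combination this
      rw [e1, norm_mul]
      have := norm_nonneg (u - c)
      have := norm_nonneg (u + c)
      nlinarith
    obtain ⟨w, hw, hwe⟩ := hD hm
    have h5 : h w ^ 2 = u ^ 2 := by rw [hsq w hw, hwe]; ring
    rcases sq_eq_sq_iff_eq_or_eq_neg.mp h5 with h6 | h6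
    · exact Or.inl ⟨w, hw, h6⟩
    · exact Or.inr ⟨w, hw, h6⟩
  have hdisj : ∀ u ∈ B, u ∈ h '' ball 0 1 → -u ∈ h '' ball 0 1 → False := by
    rintro u hu ⟨w, hw, he⟩ ⟨w', hw', he'⟩
    have h7 : φ w = φ w' := by
      have e1 := hsq w hw
      have e2 := hsq w' hw'
      rw [he] at e1
      rw [he'] at e2
      linear_combination e2 - e1
    have h8 := hinj hw hw' h7
    rw [h8, he'] at he
    have : u = 0 := by linear_combination (1 / 2 : ℂ) * (-he)
    exact hBne u hu this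
  have hpre : IsPreconnected B := (convex_ball c _).isPreconnected
  have hcB : c ∈ B := by rw [hB]; exact mem_ball_self (by positivity)
  have hOn : IsOpen {u : ℂ | -u ∈ h '' ball 0 1} := hO.preimage continuous_neg
  have hne : (B ∩ ((h '' ball 0 1) ∩ {u : ℂ | -u ∈ h '' ball 0 1})).Nonempty := by
    apply hpre _ _ hO hOn
    · intro u hu
      exact hcov u hu
    · exact ⟨c, hcB, 0, h0m, hc⟩
    · refine ⟨-h w1, ?_, ?_⟩
      · rw [hB, mem_ball, dist_eq_norm]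
        have : -h w1 - c = -(h w1 + c) := by ring
        rw [this, norm_neg]; exact hlt
      · exact ⟨w1, hw1, by simp⟩
  obtain ⟨u, hu, h1, h2⟩ := hne
  exact hdisj u hu h1 h2

/-- growth -/
lemma growth {φ : ℂ → ℂ} {b : ℂ} {d : ℝ} (hφ : DifferentiableOn ℂ φ (ball 0 1))
    (hinj : InjOn φ (ball 0 1)) (hd : 0 < d) (hD : ball (φ 0) d ⊆ φ '' ball 0 1)
    (hb : b ∉ φ '' ball 0 1) (hbd : ‖b - φ 0‖ ≤ d) :
    ∀ w, ‖w‖ ≤ 1 / 100 → ‖φ w - φ 0‖ ≤ d / 2 := by
  intro w hw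
  have h0m : (0 : ℂ) ∈ ball (0 : ℂ) 1 := by simp
  have hwm : w ∈ ball (0 : ℂ) 1 := by rw [mem_ball_zero_iff]; linarith
  have hbd2 : ‖b - φ 0‖ = d := by
    refine le_antisymm hbd ?_
    by_contra hlt
    push Not at hlt
    exact hb (hD (by rw [mem_ball, dist_eq_norm]; exact hlt))
  obtain ⟨L, hL, hLe⟩ := Pool.Agent.H84.Cartan.exists_log_ball (g := fun w => φ w - b) (c := 0)
    (R := 1) one_pos (hφ.sub_const b) (fun z hz h => hb ⟨z, hz, sub_eq_zero.mp h⟩)
  set h : ℂ → ℂ := fun w => Complex.exp (L w / 2) with hh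
  have hhd : DifferentiableOn ℂ h (ball 0 1) := (hL.div_const 2).cexp
  have hsq : ∀ w ∈ ball (0 : ℂ) 1, h w ^ 2 = φ w - b := by
    intro w hw
    rw [← hLe w hw, hh, ← Complex.exp_nat_mul]
    congr 1
    push_cast
    ring
  set c := h 0 with hc
  have hc0 : c ≠ 0 := Complex.exp_ne_zero _
  have hcp : 0 < ‖c‖ := norm_pos_iff.mpr hc0
  have hc2 : ‖c‖ ^ 2 = d := by
    rw [← norm_pow, hc, hsq 0 h0m, ← norm_neg, neg_sub, hbd2]
  have hfar := far_neg hhd hsq hinj hc.symm hc0 (by rw [hc2]; exact hD)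
  have hne : ∀ w ∈ ball (0 : ℂ) 1, h w + c ≠ 0 := by
    intro w hw h0
    have := hfar w hw
    rw [h0, norm_zero] at this
    linarith
  set F : ℂ → ℂ := fun w => c / (h w + c) with hF
  have hFd : DifferentiableOn ℂ F (ball 0 1) :=
    (differentiableOn_const c).div (hhd.add_const c) hne
  have hF0 : F 0 = 1 / 2 := by
    simp only [hF]
    rw [← hc, ← two_mul, div_mul_eq_div_div, div_right_comm, div_self hc0]
  have hFle : ∀ w ∈ ball (0 : ℂ) 1, ‖F w‖ ≤ 5 / 2 := by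
    intro w hw
    simp only [hF]
    rw [norm_div, div_le_iff₀ (norm_pos_iff.mpr (hne w hw))]
    have := hfar w hw
    linarith
  have hmaps : MapsTo F (ball 0 1) (closedBall (F 0) 3) := by
    intro z hz
    rw [mem_closedBall, dist_eq_norm, hF0]
    have h1 := hFle z hz
    have h2 := norm_sub_le (F z) (1 / 2)
    have h3 : ‖(1 / 2 : ℂ)‖ = 1 / 2 := by norm_num
    rw [h3] at h2
    linarith
  have hS := Complex.dist_le_div_mul_dist_of_mapsTo_ball hFd hmaps hwm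
  rw [dist_eq_norm, dist_zero_right, hF0] at hS
  have hS2 : ‖F w - 1 / 2‖ ≤ 3 / 100 := by
    have := norm_nonneg w
    linarith
  have hFlow : 47 / 100 ≤ ‖F w‖ := by
    have h1 := norm_sub_norm_le (1 / 2 : ℂ) (1 / 2 - F w)
    have h3 : ‖(1 / 2 : ℂ)‖ = 1 / 2 := by norm_num
    have h4 : (1 / 2 : ℂ) - (1 / 2 - F w) = F w := by ring
    have h5 : ‖(1 / 2 : ℂ) - F w‖ = ‖F w - 1 / 2‖ := norm_sub_rev _ _
    rw [h4, h3, h5] at h1
    linarith
  have hFw0 : F w ≠ 0 := by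
    intro h; rw [h, norm_zero] at hFlow; linarith
  have e1 : h w + c = c / F w := by
    simp only [hF]
    rw [div_div_cancel₀ hc0]
  have e2 : h w - c = -2 * c * (F w - 1 / 2) / F w := by
    have : h w - c = c / F w - 2 * c := by rw [← e1]; ring
    rw [this]
    field_simp
    ring
  have e3 : φ w - φ 0 = (h w - c) * (h w + c) := by
    have a1 := hsq w hwm
    have a2 := hsq 0 h0m
    rw [← hc] at a2
    linear_combination a2 - a1
  have e4 : (φ w - φ 0) * F w ^ 2 = -2 * c ^ 2 * (F w - 1 / 2) := by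
    rw [e3, e1, e2]
    field_simp
  have e5 : ‖φ w - φ 0‖ * ‖F w‖ ^ 2 = 2 * ‖c‖ ^ 2 * ‖F w - 1 / 2‖ := by
    rw [← norm_pow, ← norm_mul, e4, norm_mul, norm_mul, norm_pow]
    norm_num
  have hq : (47 / 100 : ℝ) ^ 2 ≤ ‖F w‖ ^ 2 := pow_le_pow_left₀ (by norm_num) hFlow 2
  have hn := norm_nonneg (φ w - φ 0)
  rw [hc2] at e5
  have h9 : 2 * d * ‖F w - 1 / 2‖ ≤ 2 * d * (3 / 100) :=
    mul_le_mul_of_nonneg_left hS2 (by positivity)
  have h10 := mul_le_mul_of_nonneg_left hq hn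
  nlinarith

end Pool.Agent.H64.SM
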