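import Pool.Agent.H15.SM.BDI
import Pool.Agent.H64.SM.GRcore

set_option autoImplicit false
open Metric Set Filter Topology Pool.Agent.H7.UC

/-! MP_2e6055, module GR. -/

namespace Pool.Agent.H64.SM

theorem gr : Pool.Agent.H15.SM.GR := by
  refine ⟨1 / 100, by norm_num, by norm_num, ?_⟩
  intro D φ b d hφ hd hD hb hbd w hw
  refine growth hφ.diff (hφ.inj.mono ball_subset_closedBall) hd ?_ ?_ hbd w hw
  · rw [hφ.img]; exact hD
  · rw [hφ.img]; exact hb

end Pool.Agent.H64.SM
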